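import Mathlib

/-! A maximal almost disjoint family with a Simon-type partition, and the resulting family of
subsets of `ℕ × ℕ`. -/

set_option autoImplicit false

namespace Pool.Agent.H13.Simon

open Set Filter

/-- almost disjoint family of infinite sets -/
def AD (𝓐 : Set (Set ℕ)) : Prop :=
  (∀ A ∈ 𝓐, A.Infinite) ∧ ∀ A ∈ 𝓐, ∀ B ∈ 𝓐, A ≠ B → (A ∩ B).Finite

/-- positive sets -/
def Pos (𝓐 : Set (Set ℕ)) (Y : Set ℕ) : Prop :=
  ∀ F ⊆ 𝓐, F.Finite → (Y \ ⋃₀ F).Infinite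

theorem exists_mad : ∃ 𝓐 : Set (Set ℕ), AD 𝓐 ∧ 𝓐.Infinite ∧
    ∀ P : Set ℕ, P.Infinite → ∃ A ∈ 𝓐, (A ∩ P).Infinite := by
  let C : ℕ → Set ℕ := fun m => range fun j => Nat.pair m j
  have hCinf : ∀ m, (C m).Infinite := fun m =>
    infinite_range_of_injective (fun a b h => by simpa using h)
  have hCdis : ∀ m l, m ≠ l → C m ∩ C l = ∅ := by
    intro m l hml
    ext x
    constructor
    · rintro ⟨⟨i, rfl⟩, ⟨j, hj⟩⟩
      have h := congrArg Nat.unpair hj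
      simp at h
      exact absurd h.1.symm hml
    · intro h; exact absurd h (notMem_empty _)
  have hCinj : Function.Injective C := by
    intro m l h
    by_contra hne
    have := hCdis m l hne
    rw [h, inter_self] at this
    exact (hCinf l).nonempty.ne_empty this
  have hbase : AD (range C) := by
    refine ⟨?_, ?_⟩
    · rintro _ ⟨m, rfl⟩; exact hCinf m
    · rintro _ ⟨m, rfl⟩ _ ⟨l, rfl⟩ hne
      have : m ≠ l := fun h => hne (by rw [h])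
      rw [hCdis m l this]
      exact finite_empty
  obtain ⟨𝓐, hsub, hmax⟩ := zorn_subset_nonempty {𝓐 | AD 𝓐} (by
    intro c hc hch hne
    refine ⟨⋃₀ c, ⟨?_, ?_⟩, fun s hs => subset_sUnion_of_mem hs⟩
    · rintro A ⟨𝓑, hB, hA⟩
      exact (hc hB).1 A hA
    · rintro A ⟨𝓑, hB, hA⟩ A' ⟨𝓑', hB', hA'⟩ hne'
      rcases hch.total hB hB' with h | h
      · exact (hc hB').2 A (h hA) A' hA' hne'
      · exact (hc hB).2 A hA A' (h hA') hne') (range C) hbase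
  refine ⟨𝓐, hmax.prop, (infinite_range_of_injective hCinj).mono hsub, ?_⟩
  intro P hP
  by_contra hcon
  push Not at hcon
  have hcon' : ∀ A ∈ 𝓐, (A ∩ P).Finite := fun A hA => hcon A hA
  have hPA : P ∉ 𝓐 := by
    intro h
    have := hcon' P h
    rw [inter_self] at this
    exact hP this
  have hAD : AD (insert P 𝓐) := by
    refine ⟨?_, ?_⟩
    · rintro A (rfl | hA)
      · exact hP
      · exact hmax.prop.1 A hA
    · rintro A (rfl | hA) B (rfl | hB) hne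
      · exact absurd rfl hne
      · rw [inter_comm]; exact hcon' B hB
      · exact hcon' A hA
      · exact hmax.prop.2 A hA B hB hne
  exact hPA (hmax.le_of_ge hAD (subset_insert P 𝓐) (mem_insert P 𝓐))

theorem inter_sUnion_finite {𝓐 : Set (Set ℕ)} (h : AD 𝓐) (A : Set ℕ) (hA : A ∈ 𝓐)
    (F : Set (Set ℕ)) (hF : F ⊆ 𝓐) (hFf : F.Finite) (hAF : A ∉ F) : (A ∩ ⋃₀ F).Finite := by
  rw [sUnion_eq_biUnion, inter_iUnion₂]
  exact hFf.biUnion fun B hB => h.2 A hA B (hF hB) (fun e => hAF (e ▸ hB))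

theorem diff_sUnion_infinite {𝓐 : Set (Set ℕ)} (h : AD 𝓐) (A : Set ℕ) (hA : A ∈ 𝓐)
    (F : Set (Set ℕ)) (hF : F ⊆ 𝓐) (hFf : F.Finite) (hAF : A ∉ F) (Y : Set ℕ)
    (hY : (A ∩ Y).Infinite) : (Y \ ⋃₀ F).Infinite := by
  have h1 := inter_sUnion_finite h A hA F hF hFf hAF
  have h2 : ((A ∩ Y) \ (A ∩ ⋃₀ F)).Infinite := hY.sdiff h1
  refine h2.mono ?_
  rintro x ⟨⟨hxA, hxY⟩, hx⟩
  exact ⟨hxY, fun hx' => hx ⟨hxA, hx'⟩⟩

theorem pos_univ {𝓐 : Set (Set ℕ)} (h : AD 𝓐) (hinf : 𝓐.Infinite) : Pos 𝓐 univ := by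
  intro F hF hFf
  obtain ⟨A, hA, hAF⟩ := hinf.exists_notMem_finite hFf
  refine diff_sUnion_infinite h A hA F hF hFf hAF univ ?_
  rw [inter_univ]
  exact h.1 A hA

/-- pseudo-intersections -/
theorem pseudo (Y : ℕ → Set ℕ) (hY : ∀ n, (Y n).Infinite) :
    ∃ φ : ℕ → ℕ, StrictMono φ ∧ ∀ n, φ n ∈ Y n :=
  extraction_forall_of_frequently (P := fun n k => k ∈ Y n)
    fun n => Nat.frequently_atTop_iff_infinite.2 (hY n)

theorem hits_all (Y : ℕ → Set ℕ) (hanti : ∀ n, Y (n + 1) ⊆ Y n) (φ : ℕ → ℕ)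
    (hmem : ∀ n, φ n ∈ Y n) (A : Set ℕ) (hA : (A ∩ range φ).Infinite) (n : ℕ) :
    (A ∩ Y n).Infinite := by
  have hanti' : Antitone Y := antitone_nat_of_succ_le hanti
  have h1 : (φ '' (Iio n)).Finite := (finite_Iio n).image φ
  refine (hA.sdiff h1).mono ?_
  rintro _ ⟨⟨hxA, ⟨k, rfl⟩⟩, hx⟩
  refine ⟨hxA, hanti' (?_ : n ≤ k) (hmem k)⟩
  by_contra hlt
  exact hx ⟨k, not_le.1 hlt, rfl⟩

theorem simon {𝓐 : Set (Set ℕ)} (h : AD 𝓐) (hinf : 𝓐.Infinite)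
    (hmad : ∀ P : Set ℕ, P.Infinite → ∃ A ∈ 𝓐, (A ∩ P).Infinite) :
    ∃ (n : ℕ) (X : Set ℕ), Pos 𝓐 X ∧ ∀ Y ⊆ X, Pos 𝓐 Y →
      (∃ A ∈ 𝓐, n ∈ A ∧ (A ∩ Y).Infinite) ∧ (∃ A ∈ 𝓐, n ∉ A ∧ (A ∩ Y).Infinite) := by
  by_contra hcon
  push Not at hcon
  have step : ∀ (n : ℕ) (X : {X : Set ℕ // Pos 𝓐 X}), ∃ Y : {Y : Set ℕ // Pos 𝓐 Y},
      Y.1 ⊆ X.1 ∧ ∃ b : Prop, ∀ A ∈ 𝓐, (A ∩ (Y.1 : Set ℕ)).Infinite → (n ∈ A ↔ b) := by
    intro n X
    obtain ⟨Y, hYX, hYp, hY⟩ := hcon n X X.2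
    refine ⟨⟨Y, hYp⟩, hYX, ?_⟩
    by_cases hc : ∃ A ∈ 𝓐, n ∈ A ∧ (A ∩ Y).Infinite
    · have := hY hc
      refine ⟨True, fun A hA hAi => ⟨fun _ => trivial, fun _ => ?_⟩⟩
      by_contra hn
      exact hAi (this A hA hn)
    · push Not at hc
      refine ⟨False, fun A hA hAi => ⟨fun hn => hAi (hc A hA hn), fun hf => hf.elim⟩⟩
  choose g hg1 b hb using step
  let Y : ℕ → {Y : Set ℕ // Pos 𝓐 Y} := fun n => Nat.rec ⟨univ, pos_univ h hinf⟩ (fun n X => g n X) n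
  have hYs : ∀ n, Y (n + 1) = g n (Y n) := fun n => rfl
  have hanti : ∀ n, (Y (n + 1)).1 ⊆ (Y n).1 := fun n => by rw [hYs]; exact hg1 n (Y n)
  have hYinf : ∀ n, ((Y n).1 : Set ℕ).Infinite := fun n => by
    have := (Y n).2 ∅ (empty_subset _) finite_empty
    simpa using this
  obtain ⟨φ, hφ, hφm⟩ := pseudo (fun n => ((Y n).1 : Set ℕ)) hYinf
  obtain ⟨A, hA, hAP⟩ := hmad (range φ) (infinite_range_of_injective hφ.injective)
  have hAY := hits_all (fun n => ((Y n).1 : Set ℕ)) hanti φ hφm A hAP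
  have hYA : ∀ n, (((Y n).1 : Set ℕ) \ A).Infinite := by
    intro n
    have := (Y n).2 {A} (singleton_subset_iff.2 hA) (finite_singleton A)
    simpa using this
  obtain ⟨ψ, hψ, hψm⟩ := pseudo (fun n => ((Y n).1 : Set ℕ) \ A) hYA
  obtain ⟨A', hA', hAP'⟩ := hmad (range ψ) (infinite_range_of_injective hψ.injective)
  have hAY' := hits_all (fun n => ((Y n).1 : Set ℕ)) hanti ψ (fun n => (hψm n).1) A' hAP'
  have hne : A' ≠ A := by
    rintro rfl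
    obtain ⟨x, hx1, k, rfl⟩ := hAP'.nonempty
    exact (hψm k).2 hx1
  apply hne
  ext n
  have h1 := hb n (Y n) A hA (by rw [← hYs]; exact hAY (n + 1))
  have h2 := hb n (Y n) A' hA' (by rw [← hYs]; exact hAY' (n + 1))
  rw [h1, h2]

/-- The combinatorial core. -/
theorem comb : ∃ 𝓑 : Set (Set (ℕ × ℕ)),
    (∀ B ∈ 𝓑, ∀ k, {j | (k, j) ∈ B}.Finite) ∧
    (∀ R : Set (ℕ × ℕ), {k | {j | (k, j) ∈ R}.Infinite}.Infinite → ∃ B ∈ 𝓑, (B ∩ R).Infinite) ∧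
    (∀ S : Set (ℕ × ℕ), (∀ F ⊆ 𝓑, F.Finite → ∀ n : ℕ, ∃ p ∈ S, n ≤ p.1 ∧ p ∉ ⋃₀ F) →
      ∃ T ⊆ S, T.Infinite ∧ (∀ k, {j | (k, j) ∈ T}.Finite) ∧ ∀ B ∈ 𝓑, (T ∩ B).Finite) := by
  obtain ⟨𝓐, h, hinf, hmad⟩ := exists_mad
  obtain ⟨n, X, hXp, hX⟩ := simon h hinf hmad
  -- infinitely many members of the second part meet X
  have hH1 : {A | A ∈ 𝓐 ∧ n ∈ A ∧ (A ∩ X).Infinite}.Infinite := by
    intro hfin
    have hsub : {A | A ∈ 𝓐 ∧ n ∈ A ∧ (A ∩ X).Infinite} ⊆ 𝓐 := fun A hA => hA.1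
    set H := {A | A ∈ 𝓐 ∧ n ∈ A ∧ (A ∩ X).Infinite} with hH
    have hYp : Pos 𝓐 (X \ ⋃₀ H) := by
      intro F hF hFf
      have := hXp (H ∪ F) (union_subset hsub hF) (hfin.union hFf)
      rwa [sUnion_union, ← sdiff_sdiff] at this
    obtain ⟨⟨A, hA, hnA, hAi⟩, -⟩ := hX _ sdiff_subset hYp
    have hAH : A ∈ H := ⟨hA, hnA, hAi.mono (inter_subset_inter_right _ sdiff_subset)⟩
    obtain ⟨x, hxA, _, hx⟩ := hAi.nonempty
    exact hx ⟨A, hAH, hxA⟩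
  let a : ℕ ↪ {A | A ∈ 𝓐 ∧ n ∈ A ∧ (A ∩ X).Infinite} := hH1.natEmbedding
  have ha : ∀ k, (a k : Set ℕ) ∈ 𝓐 ∧ n ∈ (a k : Set ℕ) ∧ ((a k : Set ℕ) ∩ X).Infinite :=
    fun k => (a k).2
  have hainj : ∀ k l, (a k : Set ℕ) = a l → k = l := fun k l hkl =>
    a.injective (Subtype.ext hkl)
  let C : ℕ → Set ℕ := fun k => ((a k : Set ℕ) ∩ X) \ ⋃₀ ((fun m => (a m : Set ℕ)) '' Iio k)
  have hCinf : ∀ k, (C k).Infinite := by
    intro k
    have := inter_sUnion_finite h (a k) (ha k).1 ((fun m => (a m : Set ℕ)) '' Iio k)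
      (by rintro _ ⟨m, _, rfl⟩; exact (ha m).1) ((finite_Iio k).image _)
      (by
        rintro ⟨m, hm, hmk⟩
        have := hainj m k hmk
        exact absurd hm (by rw [this]; exact lt_irrefl k))
    refine ((ha k).2.2.sdiff this).mono ?_
    rintro x ⟨⟨hxa, hxX⟩, hx⟩
    exact ⟨⟨hxa, hxX⟩, fun hx' => hx ⟨hxa, hx'⟩⟩
  let e : ℕ × ℕ → ℕ := fun p => (hCinf p.1).natEmbedding _ p.2
  have heC : ∀ p, e p ∈ C p.1 := fun p => ((hCinf p.1).natEmbedding _ p.2).2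
  have hea : ∀ p, e p ∈ (a p.1 : Set ℕ) := fun p => (heC p).1.1
  have heX : ∀ p, e p ∈ X := fun p => (heC p).1.2
  have hdisj : ∀ p q : ℕ × ℕ, p.1 < q.1 → e p ≠ e q := by
    intro p q hpq heq
    apply (heC q).2
    rw [← heq]
    exact ⟨_, ⟨p.1, hpq, rfl⟩, hea p⟩
  have heinj : Function.Injective e := by
    intro p q hpq
    rcases lt_trichotomy p.1 q.1 with h1 | h1 | h1
    · exact absurd hpq (hdisj p q h1)
    · obtain ⟨k, i⟩ := p
      obtain ⟨l, j⟩ := q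
      simp only at h1
      subst h1
      have h2 : i = j := ((hCinf k).natEmbedding _).injective (Subtype.ext hpq)
      rw [h2]
    · exact absurd hpq.symm (hdisj q p h1)
  -- the key extraction
  have hTof : ∀ S' : Set (ℕ × ℕ), (∀ k, {j | (k, j) ∈ S'}.Finite) → ∀ A ∈ 𝓐, n ∈ A →
      (A ∩ e '' S').Infinite →
      ∃ T ⊆ S', T.Infinite ∧ (∀ k, {j | (k, j) ∈ T}.Finite) ∧
        ∀ B ∈ {B | ∃ A ∈ 𝓐, n ∉ A ∧ B = e ⁻¹' A}, (T ∩ B).Finite := by
    intro S' hS' A hA hnA hAi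
    refine ⟨S' ∩ e ⁻¹' A, inter_subset_left, ?_, ?_, ?_⟩
    · intro hfin
      apply hAi
      refine (hfin.image e).subset ?_
      rintro _ ⟨hxA, ⟨p, hp, rfl⟩⟩
      exact ⟨p, ⟨hp, hxA⟩, rfl⟩
    · intro k
      exact (hS' k).subset fun j hj => hj.1
    · rintro _ ⟨A', hA', hnA', rfl⟩
      have hne : A ≠ A' := fun he => hnA' (he ▸ hnA)
      refine ((h.2 A hA A' hA' hne).preimage heinj.injOn).subset ?_
      rintro p ⟨⟨_, hpA⟩, hpA'⟩
      exact ⟨hpA, hpA'⟩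
  have hcolumns : ∀ A ∈ 𝓐, n ∉ A → ∀ k, {j | (k, j) ∈ e ⁻¹' A}.Finite := by
    intro A hA hnA k
    have hne : A ≠ a k := fun he => hnA (he ▸ (ha k).2.1)
    have hf := h.2 A hA (a k) (ha k).1 hne
    refine Set.Finite.of_finite_image (f := fun j => e (k, j)) (hf.subset ?_) ?_
    · rintro _ ⟨j, hj, rfl⟩
      exact ⟨hj, hea (k, j)⟩
    · intro i _ j _ hij
      have := heinj hij
      simpa using this
  refine ⟨{B | ∃ A ∈ 𝓐, n ∉ A ∧ B = e ⁻¹' A}, ?_, ?_, ?_⟩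
  · rintro _ ⟨A, hA, hnA, rfl⟩ k
    exact hcolumns A hA hnA k
  · intro R hR
    have hpos : Pos 𝓐 (e '' R) := by
      intro F hF hFf
      have hfk : {k | (a k : Set ℕ) ∈ F}.Finite :=
        hFf.preimage (f := fun k => (a k : Set ℕ)) (fun k _ l _ hkl => hainj k l hkl)
      obtain ⟨k, hk, hkF⟩ := hR.exists_notMem_finite hfk
      refine diff_sUnion_infinite h (a k) (ha k).1 F hF hFf hkF _ ?_
      have h1 : ((fun j => e (k, j)) '' {j | (k, j) ∈ R}).Infinite :=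
        Set.Infinite.image (fun i _ j _ hij => by simpa using heinj hij) hk
      refine h1.mono ?_
      rintro _ ⟨j, hj, rfl⟩
      exact ⟨hea (k, j), ⟨(k, j), hj, rfl⟩⟩
    obtain ⟨-, A, hA, hnA, hAi⟩ := hX (e '' R) (by rintro _ ⟨p, _, rfl⟩; exact heX p) hpos
    refine ⟨e ⁻¹' A, ⟨A, hA, hnA, rfl⟩, ?_⟩
    intro hfin
    apply hAi
    refine (hfin.image e).subset ?_
    rintro _ ⟨hxA, ⟨p, hp, rfl⟩⟩
    exact ⟨p, ⟨hxA, hp⟩, rfl⟩
  · intro S hS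
    by_contra hno
    -- a thin sequence in S
    have hcolφ : ∀ φ : ℕ → ℕ × ℕ, StrictMono (fun i => (φ i).1) → ∀ k, {j | (k, j) ∈ range φ}.Finite := by
      intro φ hφ k
      refine Set.Subsingleton.finite ?_
      rintro i ⟨u, hu⟩ j ⟨v, hv⟩
      have : u = v := hφ.injective (by simp only [hu, hv])
      subst this
      rw [hu] at hv
      simpa using hv
    have hthin : ∀ φ : ℕ → ℕ × ℕ, (∀ i, φ i ∈ S) → StrictMono (fun i => (φ i).1) →
        ∃ A ∈ 𝓐, n ∉ A ∧ (A ∩ e '' range φ).Infinite := by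
      intro φ hφS hφ
      have hinj : Function.Injective φ := fun u v huv => hφ.injective (by simp only [huv])
      obtain ⟨A, hA, hAi⟩ := hmad (e '' range φ)
        ((infinite_range_of_injective hinj).image heinj.injOn)
      refine ⟨A, hA, ?_, hAi⟩
      intro hnA
      obtain ⟨T, hT, h2⟩ := hTof (range φ) (hcolφ φ hφ) A hA hnA hAi
      exact hno ⟨T, hT.trans (by rintro _ ⟨i, rfl⟩; exact hφS i), h2⟩
    let K : Set (Set ℕ) := {A | A ∈ 𝓐 ∧ n ∉ A ∧ ∃ φ : ℕ → ℕ × ℕ, (∀ i, φ i ∈ S) ∧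
      StrictMono (fun i => (φ i).1) ∧ ∀ i, e (φ i) ∈ A}
    have hK : K.Infinite := by
      intro hfin
      have hF := hS ((fun A => e ⁻¹' A) '' K)
        (by rintro _ ⟨A, hA, rfl⟩; exact ⟨A, hA.1, hA.2.1, rfl⟩) (hfin.image _)
      choose f hf1 hf2 hf3 using hF
      let φ : ℕ → ℕ × ℕ := fun i => Nat.rec (f 0) (fun _ p => f (p.1 + 1)) i
      have hφs : ∀ i, φ (i + 1) = f ((φ i).1 + 1) := fun i => rfl
      have hφmem : ∀ i, ∃ m, φ i = f m := by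
        intro i
        cases i with
        | zero => exact ⟨0, rfl⟩
        | succ i => exact ⟨_, hφs i⟩
      have hφS : ∀ i, φ i ∈ S := by
        intro i
        obtain ⟨m, hm⟩ := hφmem i
        rw [hm]; exact hf1 m
      have hφ : StrictMono (fun i => (φ i).1) := by
        refine strictMono_nat_of_lt_succ fun i => ?_
        show (φ i).1 < (φ (i + 1)).1
        rw [hφs]
        exact Nat.lt_of_succ_le (hf2 _)
      obtain ⟨A, hA, hnA, hAi⟩ := hthin φ hφS hφ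
      have hidx : {i | e (φ i) ∈ A}.Infinite := by
        intro hfin'
        apply hAi
        refine (hfin'.image (fun i => e (φ i))).subset ?_
        rintro _ ⟨hxA, ⟨_, ⟨i, rfl⟩, rfl⟩⟩
        exact ⟨i, hxA, rfl⟩
      obtain ⟨u, hu, huA⟩ := extraction_of_frequently_atTop
        (Nat.frequently_atTop_iff_infinite.2 hidx)
      have hAK : A ∈ K := ⟨hA, hnA, fun i => φ (u i), fun i => hφS _, fun i j hij => hφ (hu hij), huA⟩
      obtain ⟨m, hm⟩ := hφmem (u 0)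
      apply hf3 m
      rw [← hm]
      exact ⟨_, ⟨A, hAK, rfl⟩, huA 0⟩
    let α : ℕ ↪ K := hK.natEmbedding
    have hα : ∀ m, (α m : Set ℕ) ∈ 𝓐 ∧ n ∉ (α m : Set ℕ) ∧ ∃ φ : ℕ → ℕ × ℕ, (∀ i, φ i ∈ S) ∧
      StrictMono (fun i => (φ i).1) ∧ ∀ i, e (φ i) ∈ (α m : Set ℕ) := fun m => (α m).2
    choose hα1 hα2 φ hφS hφ hφA using hα
    let S' : Set (ℕ × ℕ) := {p | ∃ m i, m ≤ i ∧ p = φ m i}
    have hS'S : S' ⊆ S := by
      rintro _ ⟨m, i, _, rfl⟩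
      exact hφS m i
    have hS'col : ∀ k, {j | (k, j) ∈ S'}.Finite := by
      intro k
      have hf : ((fun q : ℕ × ℕ => (φ q.1 q.2).2) '' (Iic k ×ˢ Iic k)).Finite :=
        ((finite_Iic k).prod (finite_Iic k)).image _
      refine hf.subset ?_
      rintro j ⟨m, i, hmi, hji⟩
      have hik : i ≤ k := by
        have := (hφ m).id_le i
        have h2 : (φ m i).1 = k := by rw [← hji]
        simp only [id] at this
        omega
      refine ⟨(m, i), ⟨hmi.trans hik, hik⟩, ?_⟩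
      show (φ m i).2 = j
      rw [← hji]
    have hpos : Pos 𝓐 (e '' S') := by
      intro F hF hFf
      have hfk : {k | (α k : Set ℕ) ∈ F}.Finite :=
        hFf.preimage (f := fun k => (α k : Set ℕ))
          (fun k _ l _ hkl => α.injective (Subtype.ext hkl))
      obtain ⟨m, -, hm⟩ := (infinite_univ (α := ℕ)).exists_notMem_finite hfk
      refine diff_sUnion_infinite h (α m) (hα1 m) F hF hFf hm _ ?_
      have hinj : Function.Injective fun i => e (φ m (m + i)) := by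
        intro i j hij
        have h1 := heinj hij
        have h2 := (hφ m).injective (a₁ := m + i) (a₂ := m + j) (by simp only [h1])
        omega
      refine (infinite_range_of_injective hinj).mono ?_
      rintro _ ⟨i, rfl⟩
      exact ⟨hφA m _, ⟨φ m (m + i), ⟨m, m + i, Nat.le_add_right _ _, rfl⟩, rfl⟩⟩
    obtain ⟨⟨A, hA, hnA, hAi⟩, -⟩ := hX (e '' S') (by rintro _ ⟨p, _, rfl⟩; exact heX p) hpos
    obtain ⟨T, hT, h2⟩ := hTof S' hS'col A hA hnA hAi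
    exact hno ⟨T, hT.trans hS'S, h2⟩

end Pool.Agent.H13.Simon
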