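import Pool.Agent.H13.Simon.Comb

/-! The countable Fréchet space which is not a closed image of a first countable space. -/

set_option autoImplicit false

namespace Pool.Agent.H13.Simon

open Set Filter Topology

inductive Pt : Type
  | top : Pt
  | mid : ℕ → Pt
  | pt : ℕ × ℕ → Pt

open Pt

def topX (𝓑 : Set (Set (ℕ × ℕ))) : TopologicalSpace Pt where
  IsOpen U := (∀ k, mid k ∈ U → {j | pt (k, j) ∉ U}.Finite) ∧
    (top ∈ U → ∃ F ⊆ 𝓑, F.Finite ∧ ∃ n : ℕ, (∀ k, n ≤ k → mid k ∈ U) ∧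
      ∀ p : ℕ × ℕ, n ≤ p.1 → p ∉ ⋃₀ F → pt p ∈ U)
  isOpen_univ := by
    refine ⟨fun k _ => by simp, fun _ => ⟨∅, empty_subset _, finite_empty, 0, by simp, by simp⟩⟩
  isOpen_inter := by
    rintro U V ⟨hU1, hU2⟩ ⟨hV1, hV2⟩
    refine ⟨fun k hk => ?_, fun ht => ?_⟩
    · refine ((hU1 k hk.1).union (hV1 k hk.2)).subset ?_
      intro j hj
      by_contra hc
      simp only [mem_union, mem_ofPred_eq, not_or, not_not] at hc
      exact hj ⟨hc.1, hc.2⟩
    · obtain ⟨F, hF, hFf, n, hn1, hn2⟩ := hU2 ht.1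
      obtain ⟨F', hF', hFf', n', hn1', hn2'⟩ := hV2 ht.2
      refine ⟨F ∪ F', union_subset hF hF', hFf.union hFf', max n n', ?_, ?_⟩
      · intro k hk
        exact ⟨hn1 k ((le_max_left _ _).trans hk), hn1' k ((le_max_right _ _).trans hk)⟩
      · intro p hp hpF
        rw [sUnion_union, mem_union, not_or] at hpF
        exact ⟨hn2 p ((le_max_left _ _).trans hp) hpF.1, hn2' p ((le_max_right _ _).trans hp) hpF.2⟩
  isOpen_sUnion := by
    intro S hS
    refine ⟨?_, ?_⟩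
    · rintro k ⟨U, hUS, hk⟩
      refine ((hS U hUS).1 k hk).subset ?_
      intro j hj hjU
      exact hj ⟨U, hUS, hjU⟩
    · rintro ⟨U, hUS, ht⟩
      obtain ⟨F, hF, hFf, n, hn1, hn2⟩ := (hS U hUS).2 ht
      exact ⟨F, hF, hFf, n, fun k hk => ⟨U, hUS, hn1 k hk⟩, fun p hp hpF => ⟨U, hUS, hn2 p hp hpF⟩⟩

theorem open_iff (𝓑 : Set (Set (ℕ × ℕ))) (U : Set Pt) :
    IsOpen[topX 𝓑] U ↔ (∀ k, mid k ∈ U → {j | pt (k, j) ∉ U}.Finite) ∧
    (top ∈ U → ∃ F ⊆ 𝓑, F.Finite ∧ ∃ n : ℕ, (∀ k, n ≤ k → mid k ∈ U) ∧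
      ∀ p : ℕ × ℕ, n ≤ p.1 → p ∉ ⋃₀ F → pt p ∈ U) := Iff.rfl

theorem t1 (𝓑 : Set (Set (ℕ × ℕ))) : @T1Space Pt (topX 𝓑) := by
  letI := topX 𝓑
  refine ⟨fun x => ?_⟩
  rw [← isOpen_compl_iff, open_iff]
  refine ⟨fun k _ => ?_, fun _ => ?_⟩
  · cases x with
    | top => simp
    | mid l => simp
    | pt q =>
      refine (finite_singleton q.2).subset ?_
      intro j hj
      simp only [mem_ofPred_eq, mem_compl_iff, mem_singleton_iff, not_not, Pt.pt.injEq] at hj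
      rw [mem_singleton_iff, ← hj]
  · cases x with
    | top => exact ⟨∅, empty_subset _, finite_empty, 0, by simp, by simp⟩
    | mid l =>
      refine ⟨∅, empty_subset _, finite_empty, l + 1, ?_, by simp⟩
      intro k hk
      simp only [mem_compl_iff, mem_singleton_iff, Pt.mid.injEq]
      omega
    | pt q =>
      refine ⟨∅, empty_subset _, finite_empty, q.1 + 1, by simp, ?_⟩
      intro p hp _
      simp only [mem_compl_iff, mem_singleton_iff, Pt.pt.injEq]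
      rintro rfl
      omega

/-- the basic neighbourhoods of the top point -/
def nb (F : Set (Set (ℕ × ℕ))) (n : ℕ) : Set Pt :=
  {x | x = top ∨ (∃ k, n ≤ k ∧ x = mid k) ∨ ∃ p : ℕ × ℕ, n ≤ p.1 ∧ p ∉ ⋃₀ F ∧ x = pt p}

theorem nb_mid (F : Set (Set (ℕ × ℕ))) (n k : ℕ) : mid k ∈ nb F n ↔ n ≤ k := by
  simp [nb]

theorem nb_pt (F : Set (Set (ℕ × ℕ))) (n : ℕ) (p : ℕ × ℕ) :
    pt p ∈ nb F n ↔ n ≤ p.1 ∧ p ∉ ⋃₀ F := by
  constructor
  · rintro (h | ⟨k, _, h⟩ | ⟨q, h1, h2, h⟩)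
    · exact absurd h (by simp)
    · exact absurd h (by simp)
    · cases h
      exact ⟨h1, h2⟩
  · rintro ⟨h1, h2⟩
    exact Or.inr (Or.inr ⟨p, h1, h2, rfl⟩)

theorem nb_top (F : Set (Set (ℕ × ℕ))) (n : ℕ) : top ∈ nb F n := Or.inl rfl

theorem nb_open (𝓑 : Set (Set (ℕ × ℕ))) (hcol : ∀ B ∈ 𝓑, ∀ k, {j | (k, j) ∈ B}.Finite)
    (F : Set (Set (ℕ × ℕ))) (hF : F ⊆ 𝓑) (hFf : F.Finite) (n : ℕ) :
    IsOpen[topX 𝓑] (nb F n) := by
  rw [open_iff]
  refine ⟨fun k hk => ?_, fun _ => ⟨F, hF, hFf, n, fun k hk => (nb_mid F n k).2 hk,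
    fun p hp hpF => (nb_pt F n p).2 ⟨hp, hpF⟩⟩⟩
  rw [nb_mid] at hk
  have h1 : (⋃ B ∈ F, {j | (k, j) ∈ B}).Finite := hFf.biUnion fun B hB => hcol B (hF hB) k
  refine h1.subset ?_
  intro j hj
  by_contra hc
  apply hj
  rw [nb_pt]
  refine ⟨hk, ?_⟩
  rintro ⟨B, hB, hjB⟩
  exact hc (mem_biUnion hB hjB)

theorem frechet (𝓑 : Set (Set (ℕ × ℕ))) (hcol : ∀ B ∈ 𝓑, ∀ k, {j | (k, j) ∈ B}.Finite)
    (h3 : ∀ S : Set (ℕ × ℕ), (∀ F ⊆ 𝓑, F.Finite → ∀ n : ℕ, ∃ p ∈ S, n ≤ p.1 ∧ p ∉ ⋃₀ F) →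
      ∃ T ⊆ S, T.Infinite ∧ (∀ k, {j | (k, j) ∈ T}.Finite) ∧ ∀ B ∈ 𝓑, (T ∩ B).Finite) :
    @FrechetUrysohnSpace Pt (topX 𝓑) := by
  letI := topX 𝓑
  refine ⟨fun s a ha => ?_⟩
  by_cases has : a ∈ s
  · exact ⟨fun _ => a, fun _ => has, tendsto_const_nhds⟩
  cases a with
  | pt p =>
    exfalso
    have ho : IsOpen ({pt p} : Set Pt) := by
      rw [open_iff]
      refine ⟨fun k hk => absurd hk (by simp), fun ht => absurd ht (by simp)⟩
    obtain ⟨x, hx, hxs⟩ := mem_closure_iff.1 ha _ ho rfl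
    rw [mem_singleton_iff] at hx
    rw [hx] at hxs
    exact has hxs
  | mid k =>
    have hV : ∀ m : ℕ, ∃ j, m ≤ j ∧ pt (k, j) ∈ s := by
      intro m
      have ho : IsOpen ({x | x = mid k ∨ ∃ j, m ≤ j ∧ x = pt (k, j)} : Set Pt) := by
        rw [open_iff]
        refine ⟨fun l hl => ?_, fun ht => ?_⟩
        · have hlk : l = k := by
            rcases hl with h | ⟨j, _, h⟩
            · simpa using h
            · exact absurd h (by simp)
          subst hlk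
          refine (finite_Iio m).subset ?_
          intro j hj
          by_contra hc
          exact hj (Or.inr ⟨j, not_lt.1 hc, rfl⟩)
        · rcases ht with h | ⟨j, _, h⟩
          · exact absurd h (by simp)
          · exact absurd h (by simp)
      obtain ⟨x, hx, hxs⟩ := mem_closure_iff.1 ha _ ho (Or.inl rfl)
      rcases hx with h | ⟨j, hj, h⟩
      · exact absurd (h ▸ hxs) has
      · exact ⟨j, hj, h ▸ hxs⟩
    choose j hj hjs using hV
    refine ⟨fun m => pt (k, j m), hjs, ?_⟩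
    rw [tendsto_nhds]
    intro U hU hkU
    obtain ⟨M, hM⟩ := (((open_iff 𝓑 U).1 hU).1 k hkU).bddAbove
    filter_upwards [eventually_gt_atTop M] with m hm
    by_contra hc
    have := hM (show j m ∈ {j | pt (k, j) ∉ U} from hc)
    have := hj m
    omega
  | top =>
    by_cases hmid : {k | mid k ∈ s}.Infinite
    · have hV : ∀ m : ℕ, ∃ k, m < k ∧ mid k ∈ s := by
        intro m
        obtain ⟨k, hk, hmk⟩ := hmid.exists_gt m
        exact ⟨k, hmk, hk⟩
      choose k hk hks using hV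
      refine ⟨fun m => mid (k m), hks, ?_⟩
      rw [tendsto_nhds]
      intro U hU htU
      obtain ⟨F, hF, hFf, n, hn1, hn2⟩ := ((open_iff 𝓑 U).1 hU).2 htU
      filter_upwards [eventually_ge_atTop n] with m hm
      exact hn1 _ (hm.trans (hk m).le)
    · rw [not_infinite] at hmid
      obtain ⟨N, hN⟩ := hmid.bddAbove
      have hS : ∀ F ⊆ 𝓑, F.Finite → ∀ n : ℕ, ∃ p ∈ {p | pt p ∈ s}, n ≤ p.1 ∧ p ∉ ⋃₀ F := by
        intro F hF hFf n
        obtain ⟨x, hx, hxs⟩ := mem_closure_iff.1 ha _ (nb_open 𝓑 hcol F hF hFf (max n (N + 1)))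
          (nb_top _ _)
        cases x with
        | top => exact absurd hxs has
        | mid k =>
          rw [nb_mid] at hx
          have := hN (show k ∈ {k | mid k ∈ s} from hxs)
          omega
        | pt p =>
          rw [nb_pt] at hx
          exact ⟨p, hxs, (le_max_left _ _).trans hx.1, hx.2⟩
      obtain ⟨T, hTS, hTi, hTc, hTB⟩ := h3 _ hS
      let t : ℕ ↪ T := hTi.natEmbedding
      refine ⟨fun m => pt (t m), fun m => hTS (t m).2, ?_⟩
      rw [tendsto_nhds]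
      intro U hU htU
      obtain ⟨F, hF, hFf, n, hn1, hn2⟩ := ((open_iff 𝓑 U).1 hU).2 htU
      have hbad : {p ∈ T | pt p ∉ U}.Finite := by
        have h1 : (⋃ B ∈ F, T ∩ B).Finite := hFf.biUnion fun B hB => hTB B (hF hB)
        have h2 : (⋃ k ∈ Iio n, (fun j => ((k, j) : ℕ × ℕ)) '' {j | (k, j) ∈ T}).Finite :=
          (finite_Iio n).biUnion fun k _ => (hTc k).image _
        refine (h1.union h2).subset ?_
        rintro ⟨k, j⟩ ⟨hpT, hpU⟩
        by_cases hk : k < n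
        · right
          exact mem_biUnion (show k ∈ Iio n from hk) ⟨j, hpT, rfl⟩
        · left
          by_contra hc
          apply hpU
          apply hn2 (k, j) (not_lt.1 hk)
          rintro ⟨B, hB, hpB⟩
          exact hc (mem_biUnion hB ⟨hpT, hpB⟩)
      have hbad2 : {m | pt (t m) ∉ U}.Finite := by
        refine Set.Finite.of_finite_image (f := fun m => ((t m : T) : ℕ × ℕ)) (hbad.subset ?_) ?_
        · rintro _ ⟨m, hm, rfl⟩
          exact ⟨(t m).2, hm⟩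
        · intro m _ m' _ h
          exact t.injective (Subtype.ext h)
      obtain ⟨M, hM⟩ := hbad2.bddAbove
      filter_upwards [eventually_gt_atTop M] with m hm
      by_contra hc
      have := hM (show m ∈ {m | pt (t m) ∉ U} from hc)
      omega

def enc : Pt → ℕ
  | top => 0
  | mid k => 2 * k + 1
  | pt p => 2 * Nat.pair p.1 p.2 + 2

theorem enc_inj : Function.Injective enc := by
  intro x y h
  cases x with
  | top => cases y with
    | top => rfl
    | mid l => simp [enc] at h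
    | pt q => simp [enc] at h
  | mid k => cases y with
    | top => simp [enc] at h
    | mid l => simp [enc] at h; rw [h]
    | pt q => simp only [enc] at h; omega
  | pt p => cases y with
    | top => simp [enc] at h
    | mid l => simp only [enc] at h; omega
    | pt q =>
      have h1 : Nat.pair p.1 p.2 = Nat.pair q.1 q.2 := by simp only [enc] at h; omega
      have h2 := congrArg Nat.unpair h1
      simp only [Nat.unpair_pair] at h2
      have : p = q := by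
        obtain ⟨p1, p2⟩ := p
        obtain ⟨q1, q2⟩ := q
        simpa using h2
      rw [this]

theorem semistrat (𝓑 : Set (Set (ℕ × ℕ))) : ∃ G : Set Pt → ℕ → Set Pt,
    (∀ F : Set Pt, IsClosed[topX 𝓑] F → ∀ n, IsOpen[topX 𝓑] (G F n)) ∧
    (∀ F : Set Pt, IsClosed[topX 𝓑] F → ⋂ n, G F n = F) ∧
    (∀ F K : Set Pt, IsClosed[topX 𝓑] F → IsClosed[topX 𝓑] K → F ⊆ K → ∀ n, G F n ⊆ G K n) := by
  letI := topX 𝓑
  haveI := t1 𝓑
  refine ⟨fun F n => {x | enc x ≤ n → x ∈ F}, ?_, ?_, ?_⟩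
  · intro F _ n
    have hfin : ({x | enc x ≤ n → x ∈ F}ᶜ : Set Pt).Finite := by
      refine Set.Finite.of_finite_image (f := enc) ((finite_Iic n).subset ?_) enc_inj.injOn
      rintro _ ⟨x, hx, rfl⟩
      simp only [mem_compl_iff, mem_ofPred_eq, Classical.not_imp] at hx
      exact hx.1
    have := hfin.isClosed.isOpen_compl
    rwa [compl_compl] at this
  · intro F _
    ext x
    rw [mem_iInter]
    constructor
    · intro h
      exact h (enc x) le_rfl
    · intro h n _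
      exact h
  · intro F K _ _ hFK n x hx hxn
    exact hFK (hx hxn)

theorem no_image (𝓑 : Set (Set (ℕ × ℕ))) (hcol : ∀ B ∈ 𝓑, ∀ k, {j | (k, j) ∈ B}.Finite)
    (h2 : ∀ R : Set (ℕ × ℕ), {k | {j | (k, j) ∈ R}.Infinite}.Infinite → ∃ B ∈ 𝓑, (B ∩ R).Infinite)
    (Z : Type) [TopologicalSpace Z] (d : Z → Z → ℝ)
    (hd : ∀ x, (𝓝 x).HasBasis (fun ε : ℝ => 0 < ε) (fun ε => {y | d x y < ε}))
    (f : Z → Pt) (hf : @Continuous Z Pt _ (topX 𝓑) f) (hfc : @IsClosedMap Z Pt _ (topX 𝓑) f)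
    (hfs : Function.Surjective f) : False := by
  letI := topX 𝓑
  haveI := t1 𝓑
  choose z hz using fun p : ℕ × ℕ => hfs (pt p)
  -- points over the middle level
  have hc : ∀ k, ∃ c, f c = mid k ∧ c ∈ closure (range fun j => z (k, j)) := by
    intro k
    have hcl : IsClosed (f '' closure (range fun j => z (k, j))) := hfc _ isClosed_closure
    have hmem : mid k ∈ closure (f '' closure (range fun j => z (k, j))) := by
      rw [mem_closure_iff]
      intro U hU hkU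
      obtain ⟨M, hM⟩ := (((open_iff 𝓑 U).1 hU).1 k hkU).bddAbove
      refine ⟨pt (k, M + 1), ?_, z (k, M + 1), subset_closure ⟨M + 1, rfl⟩, hz _⟩
      by_contra hcon
      have := hM (show M + 1 ∈ {j | pt (k, j) ∉ U} from hcon)
      omega
    rw [hcl.closure_eq] at hmem
    obtain ⟨c, hc1, hc2⟩ := hmem
    exact ⟨c, hc2, hc1⟩
  choose c hcf hccl using hc
  have hinf : ∀ k (V : Set Z), IsOpen V → c k ∈ V → {j | z (k, j) ∈ V}.Infinite := by
    intro k V hV hcV hfin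
    have hfin2 : ((fun j => pt (k, j)) '' {j | z (k, j) ∈ V}).Finite := hfin.image _
    have ho : IsOpen (V ∩ f ⁻¹' ((fun j => pt (k, j)) '' {j | z (k, j) ∈ V})ᶜ) :=
      hV.inter (hfin2.isClosed.isOpen_compl.preimage hf)
    have hm : c k ∈ V ∩ f ⁻¹' ((fun j => pt (k, j)) '' {j | z (k, j) ∈ V})ᶜ := by
      refine ⟨hcV, ?_⟩
      rintro ⟨j, _, hj⟩
      have hj' : pt (k, j) = f (c k) := hj
      rw [hcf k] at hj'
      exact absurd hj' (by simp)
    obtain ⟨_, ⟨hV1, hV2⟩, j, rfl⟩ := mem_closure_iff.1 (hccl k) _ ho hm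
    apply hV2
    exact ⟨j, hV1, (hz (k, j)).symm⟩
  -- a point over the top
  obtain ⟨c0, hc0, hc0cl⟩ : ∃ c0, f c0 = top ∧ c0 ∈ closure (range c) := by
    have hcl : IsClosed (f '' closure (range c)) := hfc _ isClosed_closure
    have hmem : top ∈ closure (f '' closure (range c)) := by
      rw [mem_closure_iff]
      intro U hU htU
      obtain ⟨F, hF, hFf, n, hn1, hn2⟩ := ((open_iff 𝓑 U).1 hU).2 htU
      exact ⟨mid n, hn1 n le_rfl, c n, subset_closure ⟨n, rfl⟩, hcf n⟩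
    rw [hcl.closure_eq] at hmem
    obtain ⟨c0, hc1, hc2⟩ := hmem
    exact ⟨c0, hc2, hc1⟩
  have hinf0 : ∀ V : Set Z, IsOpen V → c0 ∈ V → {k | c k ∈ V}.Infinite := by
    intro V hV hcV hfin
    have hfin2 : (mid '' {k | c k ∈ V}).Finite := hfin.image _
    have ho : IsOpen (V ∩ f ⁻¹' (mid '' {k | c k ∈ V})ᶜ) :=
      hV.inter (hfin2.isClosed.isOpen_compl.preimage hf)
    have hm : c0 ∈ V ∩ f ⁻¹' (mid '' {k | c k ∈ V})ᶜ := by
      refine ⟨hcV, ?_⟩
      rintro ⟨j, _, hj⟩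
      rw [hc0] at hj
      exact absurd hj (by simp)
    obtain ⟨_, ⟨hV1, hV2⟩, k, rfl⟩ := mem_closure_iff.1 hc0cl _ ho hm
    apply hV2
    exact ⟨k, hV1, (hcf k).symm⟩
  let V : ℕ → Set Z := fun n => interior {y | d c0 y < 1 / ((n : ℝ) + 1)}
  have hVo : ∀ n, IsOpen (V n) := fun n => isOpen_interior
  have hVc : ∀ n, c0 ∈ V n := fun n =>
    mem_interior_iff_mem_nhds.2 ((hd c0).mem_of_mem (by positivity))
  obtain ⟨κ, hκ, hκV⟩ := extraction_forall_of_frequently (P := fun n k => c k ∈ V n)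
    fun n => Nat.frequently_atTop_iff_infinite.2 (hinf0 (V n) (hVo n) (hVc n))
  let R : Set (ℕ × ℕ) := {p | ∃ n, p.1 = κ n ∧ z p ∈ V n}
  have hR : {k | {j | (k, j) ∈ R}.Infinite}.Infinite := by
    refine (infinite_range_of_injective hκ.injective).mono ?_
    rintro _ ⟨n, rfl⟩
    refine (hinf (κ n) (V n) (hVo n) (hκV n)).mono ?_
    intro j hj
    exact ⟨n, rfl, hj⟩
  obtain ⟨B, hB, hBR⟩ := h2 R hR
  have hO : IsOpen (f ⁻¹' (nb {B} 0)) :=
    (nb_open 𝓑 hcol {B} (singleton_subset_iff.2 hB) (finite_singleton B) 0).preimage hf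
  have hcO : f ⁻¹' (nb {B} 0) ∈ 𝓝 c0 := hO.mem_nhds (by
    show f c0 ∈ nb {B} 0
    rw [hc0]; exact nb_top _ _)
  obtain ⟨ε, hε, hεO⟩ := (hd c0).mem_iff.1 hcO
  obtain ⟨N, hN⟩ := exists_nat_one_div_lt hε
  apply hBR
  have hfin : (⋃ n ∈ Iio N, (fun j => ((κ n, j) : ℕ × ℕ)) '' {j | (κ n, j) ∈ B}).Finite :=
    (finite_Iio N).biUnion fun n _ => (hcol B hB _).image _
  refine hfin.subset ?_
  rintro ⟨k, j⟩ ⟨hpB, n, hk, hzV⟩
  simp only at hk
  subst hk
  have hn : n < N := by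
    by_contra hcon
    have hNn : N ≤ n := not_lt.1 hcon
    have h0 : z (κ n, j) ∈ {y | d c0 y < 1 / ((n : ℝ) + 1)} :=
      interior_subset (s := {y | d c0 y < 1 / ((n : ℝ) + 1)}) hzV
    have h1 : d c0 (z (κ n, j)) < 1 / ((n : ℝ) + 1) := h0
    have h2' : (1 : ℝ) / ((n : ℝ) + 1) ≤ 1 / ((N : ℝ) + 1) := by
      apply one_div_le_one_div_of_le (by positivity)
      have : (N : ℝ) ≤ n := by exact_mod_cast hNn
      linarith
    have h3 : z (κ n, j) ∈ f ⁻¹' (nb {B} 0) := hεO (show d c0 _ < ε by linarith)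
    have h4 : f (z (κ n, j)) ∈ nb {B} 0 := h3
    rw [hz, nb_pt] at h4
    exact h4.2 ⟨B, rfl, hpB⟩
  exact mem_biUnion (show n ∈ Iio N from hn) ⟨j, hpB, rfl⟩

end Pool.Agent.H13.Simon
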